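import Pool.Agent.Helper5.KX.Stm

/-!
# Project KX, piece XF2: the generalized lemma of Schanuel
-/

set_option autoImplicit false

namespace Pool.Agent.Helper3K.KX

open Pool.Agent.Helper5.KX

/-- Schanuel's lemma. -/
def schEquiv {S : Type} [Ring S] {A E F : Type} [AddCommGroup A] [Module S A] [AddCommGroup E]
    [Module S E] [AddCommGroup F] [Module S F] (p : E →ₗ[S] A) (q : F →ₗ[S] A) (σ : F →ₗ[S] E)
    (τ : E →ₗ[S] F) (h1 : ∀ f, p (σ f) = q f) (h2 : ∀ e, q (τ e) = p e) :
    (LinearMap.ker p × F) ≃ₗ[S] (LinearMap.ker q × E) where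
  toFun x := (⟨x.2 - τ ((x.1 : E) + σ x.2), by
    rw [LinearMap.mem_ker, map_sub, h2, map_add, h1, LinearMap.mem_ker.1 x.1.2, zero_add,
      sub_self]⟩, (x.1 : E) + σ x.2)
  invFun y := (⟨y.2 - σ ((y.1 : F) + τ y.2), by
    rw [LinearMap.mem_ker, map_sub, h1, map_add, h2, LinearMap.mem_ker.1 y.1.2, zero_add,
      sub_self]⟩, (y.1 : F) + τ y.2)
  map_add' x y := by
    refine Prod.ext (Subtype.ext ?_) ?_
    · show (x.2 + y.2) - τ (((x.1 : E) + (y.1 : E)) + σ (x.2 + y.2)) =
        (x.2 - τ ((x.1 : E) + σ x.2)) + (y.2 - τ ((y.1 : E) + σ y.2))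
      simp only [map_add]
      abel
    · show ((x.1 : E) + (y.1 : E)) + σ (x.2 + y.2) = ((x.1 : E) + σ x.2) + ((y.1 : E) + σ y.2)
      simp only [map_add]
      abel
  map_smul' c x := by
    refine Prod.ext (Subtype.ext ?_) ?_
    · show (c • x.2) - τ ((c • (x.1 : E)) + σ (c • x.2)) = c • (x.2 - τ ((x.1 : E) + σ x.2))
      simp only [map_add, map_smul, smul_sub, smul_add]
    · show (c • (x.1 : E)) + σ (c • x.2) = c • ((x.1 : E) + σ x.2)
      simp only [map_smul, smul_add]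
  left_inv x := by
    refine Prod.ext (Subtype.ext ?_) ?_
    · show ((x.1 : E) + σ x.2) - σ ((x.2 - τ ((x.1 : E) + σ x.2)) + τ ((x.1 : E) + σ x.2)) = x.1
      rw [sub_add_cancel, add_sub_cancel_right]
    · show (x.2 - τ ((x.1 : E) + σ x.2)) + τ ((x.1 : E) + σ x.2) = x.2
      rw [sub_add_cancel]
  right_inv y := by
    refine Prod.ext (Subtype.ext ?_) ?_
    · show ((y.1 : F) + τ y.2) - τ ((y.2 - σ ((y.1 : F) + τ y.2)) + σ ((y.1 : F) + τ y.2)) = y.1
      rw [sub_add_cancel, add_sub_cancel_right]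
    · show (y.2 - σ ((y.1 : F) + τ y.2)) + σ ((y.1 : F) + τ y.2) = y.2
      rw [sub_add_cancel]

section

variable {S : Type} [Ring S] {Ext : ∀ (A : Type) [AddCommGroup A] [Module S A], Prop}

theorem res_iso (hiso : ∀ (A A' : Type) [AddCommGroup A] [Module S A] [AddCommGroup A'] [Module S A'],
    Nonempty (A ≃ₗ[S] A') → Ext A → Ext A') (d : ℕ) :
    ∀ (A A' : Type) [AddCommGroup A] [Module S A] [AddCommGroup A'] [Module S A'],
      Nonempty (A ≃ₗ[S] A') → Res S Ext d A → Res S Ext d A' := by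
  induction d with
  | zero =>
    intro A A' _ _ _ _ h hA
    exact hiso A A' h hA
  | succ d ih =>
    intro A A' _ _ _ _ h hA
    obtain ⟨e⟩ := h
    obtain ⟨E, _, _, p, hE, hp, hK⟩ := hA
    refine ⟨E, _, _, e.toLinearMap ∘ₗ p, hE, e.surjective.comp hp, ?_⟩
    have hk : LinearMap.ker p = LinearMap.ker (e.toLinearMap ∘ₗ p) := by
      ext x
      simp
    exact ih _ _ ⟨LinearEquiv.ofEq _ _ hk⟩ hK

theorem res_succ (hsub : ∀ (A : Type) [AddCommGroup A] [Module S A], Subsingleton A → Ext A) (d : ℕ) :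
    ∀ (A : Type) [AddCommGroup A] [Module S A], Res S Ext d A → Res S Ext (d + 1) A := by
  induction d with
  | zero =>
    intro A _ _ hA
    refine ⟨A, _, _, LinearMap.id, hA, fun x => ⟨x, rfl⟩, ?_⟩
    refine hsub _ ⟨fun x y => Subtype.ext ?_⟩
    have hx := LinearMap.mem_ker.1 x.2
    have hy := LinearMap.mem_ker.1 y.2
    rw [LinearMap.id_apply] at hx hy
    rw [hx, hy]
  | succ d ih =>
    intro A _ _ hA
    obtain ⟨E, _, _, p, hE, hp, hK⟩ := hA
    exact ⟨E, _, _, p, hE, hp, ih _ hK⟩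

theorem res_mono (hsub : ∀ (A : Type) [AddCommGroup A] [Module S A], Subsingleton A → Ext A)
    {d d' : ℕ} (h : d ≤ d') (A : Type) [AddCommGroup A] [Module S A] (hA : Res S Ext d A) :
    Res S Ext d' A := by
  induction h with
  | refl => exact hA
  | step _ ih => exact res_succ hsub _ A ih

/-- the kernel of `p × id` -/
def kerProd {K F E : Type} [AddCommGroup K] [Module S K] [AddCommGroup F] [Module S F] [AddCommGroup E]
    [Module S E] (p : F →ₗ[S] K) :
    LinearMap.ker p ≃ₗ[S] LinearMap.ker (p.prodMap (LinearMap.id : E →ₗ[S] E)) where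
  toFun x := ⟨((x : F), 0), by
    rw [LinearMap.mem_ker]
    refine Prod.ext ?_ ?_
    · exact LinearMap.mem_ker.1 x.2
    · rfl⟩
  invFun y := ⟨(y : F × E).1, by
    rw [LinearMap.mem_ker]
    exact congrArg Prod.fst (LinearMap.mem_ker.1 y.2)⟩
  map_add' x y := by
    refine Subtype.ext (Prod.ext rfl ?_)
    show (0 : E) = 0 + 0
    rw [add_zero]
  map_smul' c x := by
    refine Subtype.ext (Prod.ext rfl ?_)
    show (0 : E) = c • 0
    rw [smul_zero]
  left_inv x := rfl
  right_inv y := by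
    refine Subtype.ext (Prod.ext rfl ?_)
    have h : (y : F × E).2 = 0 := congrArg Prod.snd (LinearMap.mem_ker.1 y.2)
    show (0 : E) = (y : F × E).2
    rw [h]

/-- the kernel of `id × p` -/
def kerProd' {K F E : Type} [AddCommGroup K] [Module S K] [AddCommGroup F] [Module S F] [AddCommGroup E]
    [Module S E] (p : F →ₗ[S] K) :
    LinearMap.ker p ≃ₗ[S] LinearMap.ker ((LinearMap.id : E →ₗ[S] E).prodMap p) where
  toFun x := ⟨(0, (x : F)), by
    rw [LinearMap.mem_ker]
    refine Prod.ext ?_ ?_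
    · rfl
    · exact LinearMap.mem_ker.1 x.2⟩
  invFun y := ⟨(y : E × F).2, by
    rw [LinearMap.mem_ker]
    exact congrArg Prod.snd (LinearMap.mem_ker.1 y.2)⟩
  map_add' x y := by
    refine Subtype.ext (Prod.ext ?_ rfl)
    show (0 : E) = 0 + 0
    rw [add_zero]
  map_smul' c x := by
    refine Subtype.ext (Prod.ext ?_ rfl)
    show (0 : E) = c • 0
    rw [smul_zero]
  left_inv x := rfl
  right_inv y := by
    refine Subtype.ext (Prod.ext ?_ rfl)
    have h : (y : E × F).1 = 0 := congrArg Prod.fst (LinearMap.mem_ker.1 y.2)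
    show (0 : E) = (y : E × F).1
    rw [h]

theorem res_prod (hiso : ∀ (A A' : Type) [AddCommGroup A] [Module S A] [AddCommGroup A'] [Module S A'],
    Nonempty (A ≃ₗ[S] A') → Ext A → Ext A')
    (hprod : ∀ (A A' : Type) [AddCommGroup A] [Module S A] [AddCommGroup A'] [Module S A'],
      Ext A → Ext A' → Ext (A × A')) (d : ℕ) :
    ∀ (K E : Type) [AddCommGroup K] [Module S K] [AddCommGroup E] [Module S E],
      Res S Ext d K → Ext E → Res S Ext d (K × E) := by
  induction d with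
  | zero =>
    intro K E _ _ _ _ hK hE
    exact hprod K E hK hE
  | succ d ih =>
    intro K E _ _ _ _ hK hE
    obtain ⟨F, _, _, p, hF, hp, hK1⟩ := hK
    refine ⟨F × E, _, _, p.prodMap LinearMap.id, hprod F E hF hE, ?_, ?_⟩
    · rintro ⟨a, b⟩
      obtain ⟨f, hf⟩ := hp a
      exact ⟨(f, b), Prod.ext hf rfl⟩
    · exact res_iso hiso d _ _ ⟨kerProd p⟩ hK1

/-- `K × (P × E) ≃ P × (K × E)` -/
def shuffle (K P E : Type) [AddCommGroup K] [Module S K] [AddCommGroup P] [Module S P] [AddCommGroup E]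
    [Module S E] : (K × (P × E)) ≃ₗ[S] (P × (K × E)) where
  toFun x := (x.2.1, (x.1, x.2.2))
  invFun y := (y.2.1, (y.1, y.2.2))
  map_add' _ _ := rfl
  map_smul' _ _ := rfl
  left_inv _ := rfl
  right_inv _ := rfl

theorem xsch_aux
    (hiso : ∀ (A A' : Type) [AddCommGroup A] [Module S A] [AddCommGroup A'] [Module S A'],
      Nonempty (A ≃ₗ[S] A') → Ext A → Ext A')
    (hprod : ∀ (A A' : Type) [AddCommGroup A] [Module S A] [AddCommGroup A'] [Module S A'],
      Ext A → Ext A' → Ext (A × A'))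
    (hproj : ∀ (A : Type) [AddCommGroup A] [Module S A], Ext A → Module.Projective S A) (D : ℕ) :
    ∀ (A Z P : Type) [AddCommGroup A] [Module S A] [AddCommGroup Z] [Module S Z]
      [AddCommGroup P] [Module S P], Module.Projective S P → Res S Ext D A → Res S Ext D Z →
      Nonempty (A ≃ₗ[S] (P × Z)) →
      ∃ (E : Type) (_ : AddCommGroup E) (_ : Module S E) (E' : Type) (_ : AddCommGroup E')
        (_ : Module S E'), Ext E ∧ Ext E' ∧ Nonempty ((P × E) ≃ₗ[S] E') := by
  induction D with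
  | zero =>
    intro A Z P _ _ _ _ _ _ hP hA hZ h
    obtain ⟨e⟩ := h
    exact ⟨Z, _, _, A, _, _, hZ, hA, ⟨e.symm⟩⟩
  | succ D ih =>
    intro A Z P _ _ _ _ _ _ hP hA hZ h
    obtain ⟨e⟩ := h
    obtain ⟨E, _, _, p, hE, hp, hK⟩ := hA
    obtain ⟨E', _, _, p', hE', hp', hK'⟩ := hZ
    haveI := hP
    haveI := hproj E hE
    haveI := hproj E' hE'
    obtain ⟨q, hq⟩ : ∃ q : (P × E') →ₗ[S] A,
        q = e.symm.toLinearMap ∘ₗ ((LinearMap.id : P →ₗ[S] P).prodMap p') := ⟨_, rfl⟩
    have hqs : Function.Surjective q := by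
      rw [hq]
      refine e.symm.surjective.comp ?_
      rintro ⟨a, b⟩
      obtain ⟨f, hf⟩ := hp' b
      exact ⟨(a, f), Prod.ext rfl hf⟩
    have hk : LinearMap.ker ((LinearMap.id : P →ₗ[S] P).prodMap p') = LinearMap.ker q := by
      rw [hq]
      ext x
      simp
    obtain ⟨σ, hσ⟩ := Module.projective_lifting_property p q hp
    obtain ⟨τ, hτ⟩ := Module.projective_lifting_property q p hqs
    have e1 := schEquiv p q σ τ (fun f => LinearMap.congr_fun hσ f) (fun f => LinearMap.congr_fun hτ f)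
    have hKq : Res S Ext D (LinearMap.ker q) :=
      res_iso hiso D _ _ ⟨(kerProd' p').trans (LinearEquiv.ofEq _ _ hk)⟩ hK'
    have hA1 : Res S Ext D (LinearMap.ker q × E) := res_prod hiso hprod D _ _ hKq hE
    have hZ1 : Res S Ext D (LinearMap.ker p × E') := res_prod hiso hprod D _ _ hK hE'
    exact ih _ _ P hP hA1 hZ1 ⟨e1.symm.trans (shuffle (LinearMap.ker p) P E')⟩

end

/-- **Piece XF2.** -/
theorem xsch : S_XSCH := by
  intro S _ Ext hiso hprod hproj hsub d d' A Z P _ _ _ _ _ _ hP hA hZ h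
  exact xsch_aux hiso hprod hproj (max d d') A Z P hP (res_mono hsub (le_max_left _ _) A hA)
    (res_mono hsub (le_max_right _ _) Z hZ) h

end Pool.Agent.Helper3K.KX
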